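import Pool.Agent.W2helper31.GP.Stm

set_option autoImplicit false

/-!
# Piece SCAL of project GP: the density of a scaled standard Gaussian vector
-/

open MeasureTheory ProbabilityTheory
open scoped ENNReal NNReal

namespace Pool.Agent.W2helper2.GP

open Pool.Agent.W2helper31.GP

/-- the density of `√t g` with respect to the law of `g`, one variable -/
noncomputable def q (t x : ℝ) : ℝ≥0∞ :=
  ENNReal.ofReal (t ^ (-(1 / 2) : ℝ) * Real.exp ((1 - 1 / t) / 2 * x ^ 2))

lemma q_meas (t : ℝ) : Measurable (q t) := by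
  unfold q
  fun_prop

lemma map_one {t : ℝ} (ht : 0 < t) :
    (gaussianReal 0 1).map (fun x => Real.sqrt t * x) = (gaussianReal 0 1).withDensity (q t) := by
  have hv : (NNReal.mk (Real.sqrt t ^ 2) (sq_nonneg _) * 1 : ℝ≥0) ≠ 0 := by
    rw [mul_one]
    intro h
    have h2 : Real.sqrt t ^ 2 = 0 := congrArg NNReal.toReal h
    rw [Real.sq_sqrt ht.le] at h2
    exact ht.ne' h2
  have hvt : ((NNReal.mk (Real.sqrt t ^ 2) (sq_nonneg _) * 1 : ℝ≥0) : ℝ) = t := by
    rw [mul_one]
    exact Real.sq_sqrt ht.le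
  rw [gaussianReal_map_const_mul, mul_zero, gaussianReal_of_var_ne_zero _ hv,
    gaussianReal_of_var_ne_zero _ one_ne_zero,
    ← withDensity_mul _ (measurable_gaussianPDF _ _) (q_meas t)]
  congr 1
  funext x
  rw [Pi.mul_apply]
  unfold gaussianPDF q
  rw [← ENNReal.ofReal_mul (gaussianPDFReal_nonneg _ _ _)]
  congr 1
  unfold gaussianPDFReal
  rw [hvt]
  have h1 : Real.sqrt (2 * Real.pi * t) = Real.sqrt (2 * Real.pi) * Real.sqrt t :=
    Real.sqrt_mul (by positivity) t
  have h2 : t ^ (-(1 / 2) : ℝ) = (Real.sqrt t)⁻¹ := by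
    rw [Real.rpow_neg ht.le, Real.sqrt_eq_rpow]
  have h3 : Real.exp (-(x - 0) ^ 2 / (2 * t)) =
      Real.exp (-(x - 0) ^ 2 / (2 * ((1 : ℝ≥0) : ℝ))) * Real.exp ((1 - 1 / t) / 2 * x ^ 2) := by
    rw [← Real.exp_add]
    congr 1
    rw [NNReal.coe_one]
    field_simp
    ring
  rw [h1, h2, h3, mul_inv, NNReal.coe_one, mul_one]
  ring

lemma prob {t : ℝ} (ht : 0 < t) : IsProbabilityMeasure ((gaussianReal 0 1).withDensity (q t)) := by
  rw [← map_one ht, gaussianReal_map_const_mul]
  infer_instance

lemma pi_withDensity {r : ℕ} {t : ℝ} (ht : 0 < t) :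
    (Gam r).withDensity (fun x => ∏ j, q t (x j)) =
      Measure.pi (fun _ : Fin r => (gaussianReal 0 1).withDensity (q t)) := by
  have := prob ht
  symm
  refine Measure.pi_eq fun s hs => ?_
  rw [withDensity_apply _ (MeasurableSet.univ_pi hs), ← lintegral_indicator (MeasurableSet.univ_pi hs)]
  have h1 : (Set.univ.pi s).indicator (fun x : Fin r → ℝ => ∏ j, q t (x j)) =
      fun x => ∏ j, (s j).indicator (q t) (x j) := by
    funext x
    by_cases hx : x ∈ Set.univ.pi s
    · rw [Set.indicator_of_mem hx]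
      refine Finset.prod_congr rfl fun j _ => ?_
      rw [Set.indicator_of_mem (hx j (Set.mem_univ j))]
    · rw [Set.indicator_of_notMem hx]
      rw [Set.mem_univ_pi] at hx
      push Not at hx
      obtain ⟨j, hj⟩ := hx
      symm
      apply Finset.prod_eq_zero (Finset.mem_univ j)
      rw [Set.indicator_of_notMem hj]
  rw [h1]
  unfold Gam
  have h2 : ∀ j, Measurable ((s j).indicator (q t)) := fun j => (q_meas t).indicator (hs j)
  rw [lintegral_prod_eq_prod_lintegral_of_indepFun Finset.univ
    (fun j (x : Fin r → ℝ) => (s j).indicator (q t) (x j))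
    (iIndepFun_pi (X := fun j => (s j).indicator (q t)) (fun j => (h2 j).aemeasurable))
    (fun j => (h2 j).comp (measurable_pi_apply j))]
  refine Finset.prod_congr rfl fun j _ => ?_
  rw [(measurePreserving_eval (fun _ : Fin r => gaussianReal 0 1) j).lintegral_comp (h2 j),
    lintegral_indicator (hs j), withDensity_apply _ (hs j)]

theorem p_SCAL : P_SCAL := by
  intro r t ht F hF
  have := prob ht
  have h1 : (Gam r).map (fun x : Fin r → ℝ => Real.sqrt t • x) =
      (Gam r).withDensity (fun x => ∏ j, q t (x j)) := by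
    rw [pi_withDensity ht]
    have h2 : (fun x : Fin r → ℝ => Real.sqrt t • x) = fun x i => (fun y => Real.sqrt t * y) (x i) := by
      funext x i
      rfl
    unfold Gam
    rw [h2]
    have : ∀ _ : Fin r, SigmaFinite ((gaussianReal 0 1).map (fun y => Real.sqrt t * y)) := by
      intro _
      rw [map_one ht]
      infer_instance
    rw [Measure.pi_map_pi (fun _ => by fun_prop)]
    congr 1
    funext _
    exact map_one ht
  have h3 : Measurable (fun x : Fin r → ℝ => ∏ j, q t (x j)) :=
    Finset.measurable_prod _ fun j _ => (q_meas t).comp (measurable_pi_apply j)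
  rw [← lintegral_map hF (by fun_prop : Measurable (fun x : Fin r → ℝ => Real.sqrt t • x)), h1,
    lintegral_withDensity_eq_lintegral_mul _ h3 hF]
  refine lintegral_congr fun x => ?_
  rw [Pi.mul_apply, mul_comm]
  congr 1
  unfold q
  rw [← ENNReal.ofReal_prod_of_nonneg (fun j _ => by positivity), Finset.prod_mul_distrib,
    ← Real.exp_sum, Finset.mul_sum, Finset.prod_const, Finset.card_univ, Fintype.card_fin,
    ← Real.rpow_natCast, ← Real.rpow_mul ht.le]
  congr 3
  ring

end Pool.Agent.W2helper2.GP
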